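import Pool.Agent.Helper52.SG.All

/-!
# MP_0a002a_al, Q1 (odd primes): locally graded Shunkov groups

`IsShunkov` is the hypothesis of the frozen statement S00673, word for word.
-/

set_option autoImplicit false

namespace Pool.Agent.Results.MP_0a002a_al.LocallyGraded

open Pool.H83Shunkov

/-- Shunkov (conjugately biprimitively finite) groups: for every finite subgroup `H`, any two
conjugate elements of prime order of `N_G(H)/H` generate a finite subgroup. -/
def IsShunkov (G : Type) [Group G] : Prop :=
  ∀ (H : Subgroup G), (H : Set G).Finite →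
    ∀ (x y n : G) (p : ℕ), p.Prime →
      x ∈ Subgroup.normalizer (H : Set G) →
      y ∈ Subgroup.normalizer (H : Set G) →
      n ∈ Subgroup.normalizer (H : Set G) →
      x ^ p ∈ H → x ∉ H → (n * x * n⁻¹)⁻¹ * y ∈ H →
      ((Subgroup.closure (({x, y} : Set G) ∪ (H : Set G)) : Subgroup G) : Set G).Finite

/-- Elementary amenable groups: the smallest class of groups containing the finite and the abelian
groups and closed under subgroups (and isomorphic copies), quotients, extensions and directed
unions. -/
inductive ElemAmenable : (G : Type) → [Group G] → Prop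
  | finite (G : Type) [Group G] (h : Finite G) : ElemAmenable G
  | abelian (G : Type) [Group G] (h : ∀ x y : G, x * y = y * x) : ElemAmenable G
  | subgroup (G G' : Type) [Group G] [Group G'] (f : G →* G') (hf : Function.Injective f)
      (h : ElemAmenable G') : ElemAmenable G
  | quotient (G G' : Type) [Group G] [Group G'] (f : G' →* G) (hf : Function.Surjective f)
      (h : ElemAmenable G') : ElemAmenable G
  | extension (G : Type) [Group G] (N : Subgroup G) [N.Normal] (hN : ElemAmenable N)
      (hQ : ElemAmenable (G ⧸ N)) : ElemAmenable G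
  | union (G : Type) [Group G] (κ : Type) (F : κ → Subgroup G) (hd : Directed (· ≤ ·) F)
      (hU : ∀ g : G, ∃ k, g ∈ F k) (h : ∀ k, ElemAmenable (F k)) : ElemAmenable G

/-- The smallest class of groups that contains all torsion-free groups and all elementary amenable
groups and is closed under subgroups (and isomorphic copies), extensions, directed unions, and
actions on trees: `G` is in the class if it acts without inversions on a tree with all vertex
stabilizers in the class. -/
inductive InClass : (G : Type) → [Group G] → Prop
  | torsionFree (G : Type) [Group G] (h : ∀ g : G, IsOfFinOrder g → g = 1) : InClass G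
  | amenable (G : Type) [Group G] (h : ElemAmenable G) : InClass G
  | subgroup (G G' : Type) [Group G] [Group G'] (f : G →* G') (hf : Function.Injective f)
      (h : InClass G') : InClass G
  | extension (G : Type) [Group G] (N : Subgroup G) [N.Normal] (hN : InClass N)
      (hQ : InClass (G ⧸ N)) : InClass G
  | union (G : Type) [Group G] (κ : Type) (F : κ → Subgroup G) (hd : Directed (· ≤ ·) F)
      (hU : ∀ g : G, ∃ k, g ∈ F k) (h : ∀ k, InClass (F k)) : InClass G
  | tree (G V : Type) [Group G] [MulAction G V] (T : SimpleGraph V) (hT : T.IsTree)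
      (hA : ∀ (g : G) (v w : V), T.Adj v w → T.Adj (g • v) (g • w))
      (hN : ∀ (g : G) (v w : V), T.Adj v w → ¬ (g • v = w ∧ g • w = v))
      (h : ∀ v : V, InClass (MulAction.stabilizer G v)) : InClass G

/-- Locally graded groups: every nontrivial finitely generated subgroup has a proper subgroup of
finite index. -/
def LocallyGraded (G : Type) [Group G] : Prop :=
  ∀ K : Subgroup G, K.FG → K ≠ ⊥ → ∃ L : Subgroup K, L.FiniteIndex ∧ L ≠ ⊤

/-- The group `K` has an infinite quotient `K ⧸ R` which is residually in `InClass`: every `x ∉ R`
lies outside some normal subgroup `M ≥ R` with `K ⧸ M` in `InClass` (for example `M` of finite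
index). -/
def HasQuotient (K : Type) [Group K] : Prop :=
  ∃ (R : Subgroup K) (_ : R.Normal), Infinite (K ⧸ R) ∧
    ∀ x : K, x ∉ R → ∃ (M : Subgroup K) (_ : M.Normal), R ≤ M ∧ x ∉ M ∧ InClass (K ⧸ M)

/-- The smallest class of groups that contains all locally graded groups and all groups whose infinite
subgroups generated by finitely many elements of finite order satisfy `HasQuotient`, and that is closed
under subgroups (and isomorphic copies), extensions with kernel in `InClass` and quotient in the class,
directed unions, and actions without inversions on trees. -/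
inductive Graded : (G : Type) → [Group G] → Prop
  | locallyGraded (G : Type) [Group G] (h : LocallyGraded G) : Graded G
  | graded (G : Type) [Group G]
      (h : ∀ S : Finset G, (∀ s ∈ S, IsOfFinOrder s) →
        Infinite (Subgroup.closure (S : Set G)) → HasQuotient (Subgroup.closure (S : Set G))) :
      Graded G
  | subgroup (G G' : Type) [Group G] [Group G'] (f : G →* G') (hf : Function.Injective f)
      (h : Graded G') : Graded G
  | extension (G : Type) [Group G] (N : Subgroup G) [N.Normal] (hN : InClass N)
      (hQ : Graded (G ⧸ N)) : Graded G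
  | union (G : Type) [Group G] (κ : Type) (F : κ → Subgroup G) (hd : Directed (· ≤ ·) F)
      (hU : ∀ g : G, ∃ k, g ∈ F k) (h : ∀ k, Graded (F k)) : Graded G
  | tree (G V : Type) [Group G] [MulAction G V] (T : SimpleGraph V) (hT : T.IsTree)
      (hA : ∀ (g : G) (v w : V), T.Adj v w → T.Adj (g • v) (g • w))
      (hN : ∀ (g : G) (v w : V), T.Adj v w → ¬ (g • v = w ∧ g • w = v))
      (h : ∀ v : V, Graded (MulAction.stabilizer G v)) : Graded G

theorem goodSec_of_elemAmenable {G : Type} [Group G] (h : ElemAmenable G) : GoodSec G := by
  induction h with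
  | finite G _ => exact goodSec_finite G
  | abelian G hG => exact goodSec_abelian G hG
  | subgroup G G' f hf _ ih => exact ih.sub f hf
  | quotient G G' f hf _ ih => exact ih.quot f hf
  | extension G N _ _ ih1 ih2 => exact goodSec_extension G N ih1 ih2
  | union G κ F hd hU _ ih => exact goodSec_union G F hd hU ih

theorem good_of_inClass {G : Type} [Group G] (h : InClass G) : Good G := by
  induction h with
  | torsionFree G hG => exact good_torsionFree G hG
  | amenable G hG => exact (goodSec_of_elemAmenable hG).good
  | subgroup G G' f hf _ ih => exact ih.comp f hf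
  | extension G N _ _ ih1 ih2 => exact good_extension G N ih1 ih2
  | union G κ F hd hU _ ih => exact good_union G F hd hU ih
  | tree G V T hT hA hN _ ih => exact good_tree G T hT hA hN ih

open Pool.Agent.Helper52.SG in
/-- a group in which all infinite subgroups generated by finitely many elements of finite order
satisfy `HasQuotient` is in `LG` -/
theorem lg_of_hasQuotient {G : Type} [Group G]
    (hG : ∀ S : Finset G, (∀ s ∈ S, IsOfFinOrder s) →
      Infinite (Subgroup.closure (S : Set G)) → HasQuotient (Subgroup.closure (S : Set G))) :
    LG G := by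
  classical
  intro K hPG hinf
  obtain ⟨S, hS, hp⟩ := id hPG
  have hK : Subgroup.closure ((S.image K.subtype : Finset G) : Set G) = K := by
    rw [Finset.coe_image, ← MonoidHom.map_closure, hS, ← MonoidHom.range_eq_map,
      Subgroup.range_subtype]
  have h1 : ∀ s ∈ S.image K.subtype, IsOfFinOrder s := by
    intro s hs
    obtain ⟨x, hx, rfl⟩ := Finset.mem_image.1 hs
    have h2 : IsOfFinOrder x := by
      have h3 := hp x hx 1
      have h4 : x ∈ Subgroup.closure ({x, (1 : K)⁻¹ * x * 1} : Set K) :=
        Subgroup.subset_closure (Set.mem_insert _ _)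
      have : Finite (Subgroup.closure ({x, (1 : K)⁻¹ * x * 1} : Set K)) := h3
      have h5 := isOfFinOrder_of_finite
        (⟨x, h4⟩ : Subgroup.closure ({x, (1 : K)⁻¹ * x * 1} : Set K))
      exact (Subgroup.subtype _).isOfFinOrder h5
    exact K.subtype.isOfFinOrder h2
  have h6 : Infinite (Subgroup.closure ((S.image K.subtype : Finset G) : Set G)) := by
    rw [hK]
    exact hinf
  have h7 := hG _ h1 h6
  rw [hK] at h7
  obtain ⟨R, hR, hQ, hsep⟩ := h7
  refine ⟨R, hR, hQ, fun x hx => ?_⟩
  obtain ⟨M, hM, hRM, hxM, hC⟩ := hsep x hx
  have hfin : Finite (K ⧸ M) :=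
    Pool.Agent.Helper64.SG.LGG.finite_of_good
      (Pool.Agent.Helper64.SG.LGG.PG.map hPG (QuotientGroup.mk' M)
        (QuotientGroup.mk'_surjective M)) (good_of_inClass hC)
  exact ⟨M, hM, Subgroup.finiteIndex_of_finite_quotient, hRM, hxM⟩

theorem hasQuotient_of_locallyGraded {G : Type} [Group G] (h : LocallyGraded G) (S : Finset G)
    (hi : Infinite (Subgroup.closure (S : Set G))) : HasQuotient (Subgroup.closure (S : Set G)) := by
  obtain ⟨R, hR, h1, h2⟩ := Pool.Agent.Helper52.SG.All.h_LGR G h _ ⟨S, rfl⟩ hi
  refine ⟨R, hR, h1, fun x hx => ?_⟩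
  obtain ⟨M, hM, h3, h4, h5⟩ := h2 x hx
  refine ⟨M, hM, h4, h5, InClass.amenable _ (ElemAmenable.finite _ ?_)⟩
  exact Subgroup.finiteIndex_iff_finite_quotient.1 h3

open Pool.Agent.Helper52.SG Pool.Agent.Helper52.SG.All in
theorem lg_of_graded {G : Type} [Group G] (h : Graded G) : LG G := by
  induction h with
  | locallyGraded G h => exact lg_of_hasQuotient fun S _ hi => hasQuotient_of_locallyGraded h S hi
  | graded G h => exact lg_of_hasQuotient h
  | subgroup G G' f hf _ ih => exact h_LGS G' G f hf ih
  | extension G N hN _ ih =>
    exact h_LGE (G ⧸ N) G (QuotientGroup.mk' N)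
      (Pool.Agent.Helper29.SH.good_ker_mk' N (good_of_inClass hN)) ih
  | union G κ F hd hU _ ih => exact h_LGU G κ F hd hU ih
  | tree G V T hT hA hN _ ih => exact h_LGT G V T hT hA hN ih

/-- Every group in which all elements `g ≠ 1` survive in quotients in `InClass` (the groups from which
the class `Wide` of the earlier result `ResidualClass` is built) is in `Graded`. -/
theorem graded_of_residual {G : Type} [Group G]
    (h : ∀ g : G, g ≠ 1 → ∃ (N : Subgroup G) (_ : N.Normal), g ∉ N ∧ InClass (G ⧸ N)) :
    Graded G := by
  refine Graded.graded G fun S _ hi => ?_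
  refine ⟨⊥, inferInstance, ?_, fun x hx => ?_⟩
  · exact Infinite.of_injective _ (QuotientGroup.quotientBot (G := _)).symm.injective
  · have hx1 : (x : G) ≠ 1 := fun he => hx (Subgroup.mem_bot.2 (Subtype.ext he))
    obtain ⟨N, hN, hxN, hC⟩ := h x hx1
    refine ⟨N.subgroupOf _, inferInstance, bot_le, fun he => hxN (Subgroup.mem_subgroupOf.1 he), ?_⟩
    let f : (Subgroup.closure (S : Set G)) ⧸ (N.subgroupOf (Subgroup.closure (S : Set G))) →*
        G ⧸ N := QuotientGroup.map _ N (Subgroup.closure (S : Set G)).subtype (le_refl _)
    refine InClass.subgroup _ _ f ?_ hC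
    rw [← MonoidHom.ker_eq_bot_iff, QuotientGroup.ker_map]
    rw [Subgroup.map_eq_bot_iff, QuotientGroup.ker_mk']
    exact le_refl _

/-- Let `G` be a Shunkov group with infinitely many elements of finite order. If `G` is in the class
`Graded` (for example if `G` is locally graded) then every element of odd prime order of `G` lies in an
infinite locally finite subgroup. -/
theorem result (G : Type) [Group G] (hC : Graded G) (hS : IsShunkov G)
    (hinf : {g : G | IsOfFinOrder g}.Infinite) :
    ∀ g : G, (orderOf g).Prime → orderOf g ≠ 2 →
      ∃ K : Subgroup G, g ∈ K ∧ (K : Set G).Infinite ∧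
        ∀ S : Finset G, (S : Set G) ⊆ (K : Set G) →
          ((Subgroup.closure (S : Set G) : Subgroup G) : Set G).Finite :=
  fun g hg h2 => Pool.Agent.Helper52.SG.All.h_END G hS hinf (lg_of_graded hC) g hg h2

end Pool.Agent.Results.MP_0a002a_al.LocallyGraded
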