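import Pool.Agent.Helper83.Shunkov.Final

/-!
# MP_0a002a_al, Q1: Shunkov groups built from torsion-free and elementary amenable groups

`IsShunkov` is the hypothesis of the frozen statement S00673, word for word.
-/

set_option autoImplicit false

namespace Pool.Agent.Results.MP_0a002a_al.ShunkovClass

open Pool.H83Shunkov

/-- Shunkov (conjugately biprimitively finite) groups: for every finite subgroup `H`, any two
conjugate elements of prime order of `N_G(H)/H` generate a finite subgroup. -/
def IsShunkov (G : Type) [Group G] : Prop :=
  ∀ (H : Subgroup G), (H : Set G).Finite →
    ∀ (x y n : G) (p : ℕ), p.Prime →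
      x ∈ Subgroup.normalizer (H : Set G) →
      y ∈ Subgroup.normalizer (H : Set G) →
      n ∈ Subgroup.normalizer (H : Set G) →
      x ^ p ∈ H → x ∉ H → (n * x * n⁻¹)⁻¹ * y ∈ H →
      ((Subgroup.closure (({x, y} : Set G) ∪ (H : Set G)) : Subgroup G) : Set G).Finite

/-- Elementary amenable groups: the smallest class of groups containing the finite and the abelian
groups and closed under subgroups (and isomorphic copies), quotients, extensions and directed
unions. -/
inductive ElemAmenable : (G : Type) → [Group G] → Prop
  | finite (G : Type) [Group G] (h : Finite G) : ElemAmenable G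
  | abelian (G : Type) [Group G] (h : ∀ x y : G, x * y = y * x) : ElemAmenable G
  | subgroup (G G' : Type) [Group G] [Group G'] (f : G →* G') (hf : Function.Injective f)
      (h : ElemAmenable G') : ElemAmenable G
  | quotient (G G' : Type) [Group G] [Group G'] (f : G' →* G) (hf : Function.Surjective f)
      (h : ElemAmenable G') : ElemAmenable G
  | extension (G : Type) [Group G] (N : Subgroup G) [N.Normal] (hN : ElemAmenable N)
      (hQ : ElemAmenable (G ⧸ N)) : ElemAmenable G
  | union (G : Type) [Group G] (κ : Type) (F : κ → Subgroup G) (hd : Directed (· ≤ ·) F)
      (hU : ∀ g : G, ∃ k, g ∈ F k) (h : ∀ k, ElemAmenable (F k)) : ElemAmenable G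

/-- The smallest class of groups that contains all torsion-free groups and all elementary amenable
groups and is closed under subgroups (and isomorphic copies), extensions, directed unions, and
actions on trees: `G` is in the class if it acts without inversions on a tree with all vertex
stabilizers in the class (so the class is closed under amalgamated free products, HNN extensions and
fundamental groups of graphs of groups). -/
inductive InClass : (G : Type) → [Group G] → Prop
  | torsionFree (G : Type) [Group G] (h : ∀ g : G, IsOfFinOrder g → g = 1) : InClass G
  | amenable (G : Type) [Group G] (h : ElemAmenable G) : InClass G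
  | subgroup (G G' : Type) [Group G] [Group G'] (f : G →* G') (hf : Function.Injective f)
      (h : InClass G') : InClass G
  | extension (G : Type) [Group G] (N : Subgroup G) [N.Normal] (hN : InClass N)
      (hQ : InClass (G ⧸ N)) : InClass G
  | union (G : Type) [Group G] (κ : Type) (F : κ → Subgroup G) (hd : Directed (· ≤ ·) F)
      (hU : ∀ g : G, ∃ k, g ∈ F k) (h : ∀ k, InClass (F k)) : InClass G
  | tree (G V : Type) [Group G] [MulAction G V] (T : SimpleGraph V) (hT : T.IsTree)
      (hA : ∀ (g : G) (v w : V), T.Adj v w → T.Adj (g • v) (g • w))
      (hN : ∀ (g : G) (v w : V), T.Adj v w → ¬ (g • v = w ∧ g • w = v))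
      (h : ∀ v : V, InClass (MulAction.stabilizer G v)) : InClass G

theorem goodSec_of_elemAmenable {G : Type} [Group G] (h : ElemAmenable G) : GoodSec G := by
  induction h with
  | finite G _ => exact goodSec_finite G
  | abelian G hG => exact goodSec_abelian G hG
  | subgroup G G' f hf _ ih => exact ih.sub f hf
  | quotient G G' f hf _ ih => exact ih.quot f hf
  | extension G N _ _ ih1 ih2 => exact goodSec_extension G N ih1 ih2
  | union G κ F hd hU _ ih => exact goodSec_union G F hd hU ih

theorem good_of_inClass {G : Type} [Group G] (h : InClass G) : Good G := by
  induction h with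
  | torsionFree G hG => exact good_torsionFree G hG
  | amenable G hG => exact (goodSec_of_elemAmenable hG).good
  | subgroup G G' f hf _ ih => exact ih.comp f hf
  | extension G N _ _ ih1 ih2 => exact good_extension G N ih1 ih2
  | union G κ F hd hU _ ih => exact good_union G F hd hU ih
  | tree G V T hT hA hN _ ih => exact good_tree G T hT hA hN ih

/-- Let `G` be a Shunkov group with infinitely many elements of finite order. If `G` is in the class
`InClass` (for example if `G` is elementary amenable) then `G` has an infinite normal locally finite
subgroup `L` which contains all elements of prime order. So every element of prime order lies in an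
infinite locally finite subgroup. -/
theorem result (G : Type) [Group G] (hC : InClass G) (hS : IsShunkov G)
    (hinf : {g : G | IsOfFinOrder g}.Infinite) :
    ∃ L : Subgroup G, L.Normal ∧ (L : Set G).Infinite ∧
      (∀ S : Finset G, (S : Set G) ⊆ (L : Set G) →
        ((Subgroup.closure (S : Set G) : Subgroup G) : Set G).Finite) ∧
      ∀ g : G, (orderOf g).Prime → g ∈ L := by
  obtain ⟨h1, h2⟩ := shunkov_conclusion (good_of_inClass hC).X hS hinf
  exact ⟨lfRad G, inferInstance, h1, isLocFin_lfRad, h2⟩

end Pool.Agent.Results.MP_0a002a_al.ShunkovClass
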